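import Pool.Agent.Q37.WN.Ring

/-!
# A ring generated by its residue fields whose spectrum is not weakly noetherian

`BR k` is the ring of all sequences `(f₀, f₁, …)` of power series over the field `k` which have a
common constant coefficient `c` and satisfy `fᵢ = c` for all but finitely many `i`.
-/

open CategoryTheory Limits

namespace Pool.Agent.Results.MP_e7c909_al.ResidueGenNotWeaklyNoetherian

open Pool.Agent.Q37.WN

universe w

section defs

variable (R : Type) [CommRing R] [HasDerivedCategory.{w} (ModuleCat.{0} R)]

/-- An `R`-module, viewed as an object of `D(R)` concentrated in degree `0`. -/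
noncomputable def inDegreeZero (M : Type) [AddCommGroup M] [Module R M] :
    DerivedCategory (ModuleCat.{0} R) :=
  (DerivedCategory.singleFunctor (ModuleCat.{0} R) 0).obj (ModuleCat.of R M)

/-- The class of all residue fields `κ(𝔭)`, in degree `0`. -/
def residueFields : ObjectProperty (DerivedCategory (ModuleCat.{0} R)) :=
  fun X => ∃ p : PrimeSpectrum R, X = inDegreeZero R p.asIdeal.ResidueField

variable {R} in
/-- `Loc⟨S⟩`: the objects lying in every localizing subcategory that contains `S`. -/
def Loc (S : ObjectProperty (DerivedCategory (ModuleCat.{0} R))) :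
    ObjectProperty (DerivedCategory (ModuleCat.{0} R)) :=
  fun X => ∀ P : ObjectProperty (DerivedCategory (ModuleCat.{0} R)), IsLocalizing P → S ≤ P → P X

/-- The condition (∗): `R ∈ Loc⟨κ(𝔭) | 𝔭 ∈ Spec R⟩`. -/
def Star : Prop := Loc (residueFields R) (inDegreeZero R R)

end defs

/-- For every field `k`, the ring `BR k` satisfies (∗), but its spectrum is not weakly
noetherian. -/
theorem result (k : Type) [Field k] :
    (∀ [HasDerivedCategory.{w} (ModuleCat.{0} (BR k))], Star (BR k)) ∧
      ¬ WeaklyNoetherian (PrimeSpectrum (BR k)) :=
  ⟨fun _ hP hS => BR.bouquet.holds hP (fun q => hS _ ⟨q, rfl⟩), BR.bouquet.not_weaklyNoetherian⟩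

end Pool.Agent.Results.MP_e7c909_al.ResidueGenNotWeaklyNoetherian
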